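import Pool.Agent.R858.SS.FreeChain

/-!
# MP_f887f5_ag: the Harbourne-type containment fails for recursively free arrangements

Q1 asks whether `J(A)^(2r-1) ⊆ J(A)^r` for every recursively free arrangement `A` and every `r ≥ 2`.
The answer is no: it fails for `r = 2` and the arrangement of the twelve planes in `ℂ³`

`z, x - z, x + z, y - z, y + z, x, y, x - y, x + y, y - 2x, y + 2x, y - 3x`,

which is even inductively free. The definitions (`IsArrangement`, `J`, `symbolicPower`, `logDer`,
`HasExponents`, `deletion`, `restriction`, `RecursivelyFree`, `InductivelyFree`) are in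
`Pool/Agent/R858/SS/Defs.lean` and `Pool/Agent/R858/SS/FreeDefs.lean`.
-/

set_option autoImplicit false

namespace Pool.Agent.Results.MP_f887f5_ag.RecursivelyFreeFails

open R858SS

/-- (1) There is a recursively free (even inductively free) arrangement of twelve planes in `ℂ³`
with `J(A)^(3) ⊄ J(A)^2`.
(2) So it is not true that `J(A)^(2r-1) ⊆ J(A)^r` for all recursively free arrangements `A` and all
`r ≥ 2`: the answer to Q1 is negative. -/
theorem result :
    (∃ A : Finset (Submodule ℂ (Fin 3 → ℂ)),
      IsArrangement A ∧ A.card = 12 ∧ RecursivelyFree 3 A ∧ InductivelyFree 3 A ∧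
        ¬ symbolicPower A 3 ≤ J A ^ 2) ∧
    ¬ ∀ (l : ℕ) (A : Finset (Submodule ℂ (Fin l → ℂ))), IsArrangement A → RecursivelyFree l A →
        ∀ r : ℕ, 2 ≤ r → symbolicPower A (2 * r - 1) ≤ J A ^ r :=
  ⟨⟨A12, isArr, card_A12, indFree_A12.recursivelyFree, indFree_A12, not_le⟩,
    fun h => not_le (h 3 A12 isArr indFree_A12.recursivelyFree 2 le_rfl)⟩

end Pool.Agent.Results.MP_f887f5_ag.RecursivelyFreeFails
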